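import Mathlib

set_option autoImplicit false

namespace Pool.Agent.Results.MP_a8dd7a_co.Yes

open Finset

/-- the set of symbols in row `i` -/
def rowSet {r c v : ℕ} (A : Fin r → Fin c → Fin v) (i : Fin r) : Finset (Fin v) :=
  univ.image fun j => A i j

/-- the set of symbols in column `j` -/
def colSet {r c v : ℕ} (A : Fin r → Fin c → Fin v) (j : Fin c) : Finset (Fin v) :=
  univ.image fun i => A i j

/-- `A` is an `(r × c, v)`-triple array -/
def TripleArray (r c v : ℕ) (A : Fin r → Fin c → Fin v) : Prop :=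
  (∀ i j j', A i j = A i j' → j = j') ∧ (∀ j i i', A i j = A i' j → i = i') ∧
  (∃ k, k * v = r * c ∧ ∀ s, #{p : Fin r × Fin c | A p.1 p.2 = s} = k) ∧
  (∃ l, ∀ i i', i ≠ i' → #(rowSet A i ∩ rowSet A i') = l) ∧
  (∃ l, ∀ j j', j ≠ j' → #(colSet A j ∩ colSet A j') = l) ∧
  (∃ l, ∀ i j, #(rowSet A i ∩ colSet A j) = l)

def arr (i : Fin 16) (j : Fin 25) : Fin 100 :=
  Fin.ofNat 100 ((0x305cb15284c911203c70d182c509101c305080c10101664148f8ae53844e0c0ad35e0d0eea86076d40b49f6a495918ead4863e15daf39e8e78ee8e16e20135976db16937eb4a88421dea13df0a7b629627025bb699719039582bc62e4625aa315f8b7d665e37215c539b759846586c47311a2dba50490c7f566407419cd4bf79a00673a9d2a342a152860b964c952234e68c9d386e7ce9b325e3c58705f9d3664b9e4079324450a03e7912e5ac582f52a162b557aedcb76b161c17f18b143868c386cd193ac17ae5ac52234e992d9b15eb55bb72ddabc18289101c080080c12b54a542c3e7912141529d2a342c57ad56c9d8a25cad630023450b1d98908d3b6270cf229439f19627220870b183f06cd3ab745e3a24cd49423a8648d7add81b861d92b5ef81464ca9c9682852b422f0e20903033b5e6a1016ca973d2b292a970422a048cc5c0367e3c10ae97197801aa95adca4948a190f887d1c614fcd1e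 >>> (7 * (25 * i.val + j.val))) % 128)

theorem result : ∃ A : Fin 16 → Fin 25 → Fin 100, TripleArray 16 25 100 A :=
  ⟨arr, by decide +kernel, by decide +kernel, ⟨4, rfl, by decide +kernel⟩,
    ⟨5, by decide +kernel⟩, ⟨2, by decide +kernel⟩, ⟨4, by decide +kernel⟩⟩

end Pool.Agent.Results.MP_a8dd7a_co.Yes
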